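import Pool.Agent.Helper57.SL.Stmts
import Pool.Agent.Helper57.SI.SI

/-! Row UNS: suprema over unions of typical short intervals, from row CMS. -/

set_option autoImplicit false

namespace Pool.Agent.Helper17.SL

open MeasureTheory Set Filter Topology
open Pool.Agent.Helper57.QZ (Pr tor circ aa Zy Wy Sy Vy Ky pt lin)
open Pool.Agent.Helper57.SI (si57_alg)
open Pool.Agent.Helper57.SL

theorem uns_sup {a b : ℝ} {f : ℝ → ℝ} {G : Set ℝ} (hub : ∀ t ∈ G, f t ≤ b)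
    (hlb : ∃ t ∈ G, a ≤ f t) : a ≤ sSup (f '' G) ∧ sSup (f '' G) ≤ b := by
  obtain ⟨t, ht, hat⟩ := hlb
  have hbd : BddAbove (f '' G) := by
    refine ⟨b, ?_⟩
    rintro _ ⟨s, hs, rfl⟩
    exact hub s hs
  constructor
  · exact hat.trans (le_csSup hbd ⟨t, ht, rfl⟩)
  · refine csSup_le ⟨f t, ⟨t, ht, rfl⟩⟩ ?_
    rintro _ ⟨s, hs, rfl⟩
    exact hub s hs

theorem uns_log {d : ℝ} (h0 : 0 < d) (h1 : d ≤ 1 / 20) : -(d / 16) ≤ Real.log (1 - d / 40) := by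
  have h2 : 0 < 1 - d / 40 := by linarith
  have h3 := Real.one_sub_inv_le_log_of_pos h2
  have h4 : (1 - d / 40)⁻¹ ≤ 1 + d / 16 := by
    rw [inv_le_iff_one_le_mul₀ h2]
    nlinarith
  linarith

theorem st_UNS (h : ST_CMS) : ST_UNS := by
  intro δ hδ B hB
  have hd : δ / 20 ∈ Ioo (0:ℝ) 1 := ⟨by linarith [hδ.1], by linarith [hδ.2]⟩
  obtain ⟨κ, hκ, H₀, T₀, hH₀, hT₀, h1⟩ := h (δ / 20) hd B hB
  refine ⟨κ, hκ, H₀, T₀, hH₀, hT₀, fun T hT H hH hHT => ?_⟩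
  obtain ⟨hl3, h2⟩ := h1 T hT H hH hHT
  refine ⟨hl3, fun σ hσ => ?_⟩
  obtain ⟨hSL, M, R, E, hE1, hE2, h3⟩ := h2 σ hσ
  have hT0 : 0 < T := by linarith
  refine ⟨E, hE1, hE2, fun U hU hUne G hG => ?_⟩
  have hin : ∀ u ∈ U, u ∈ Icc T (2 * T) ∧ u ∉ E := fun u hu => hU hu
  have hmem : ∀ t ∈ G, ∃ u ∈ U, t ∈ Icc u (u + H) := by
    intro t ht
    rw [hG] at ht
    simpa only [mem_iUnion, exists_prop] using ht
  have hsub : ∀ u ∈ U, ∀ t ∈ Icc u (u + H), t ∈ G := by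
    intro u hu t ht
    rw [hG]
    simp only [mem_iUnion, exists_prop]
    exact ⟨u, hu, ht⟩
  have hLpos : 0 < Real.log (Real.log H) := by
    apply Real.log_pos
    have e1 : Real.exp 1 < H := by
      have := Real.exp_one_lt_d9
      linarith
    have e2 := Real.log_lt_log (Real.exp_pos 1) e1
    rwa [Real.log_exp] at e2
  obtain ⟨L, hL⟩ : ∃ L : ℝ, L = Real.log (Real.log H) := ⟨_, rfl⟩
  rw [← hL] at hLpos hSL h3
  obtain ⟨S, hS⟩ : ∃ S : ℝ, S = S2 σ ⌊Real.log H⌋₊ := ⟨_, rfl⟩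
  rw [← hS] at hSL h3
  have hS0 : 0 < S := by linarith
  obtain ⟨q, hq⟩ : ∃ q : ℝ, q = S / L := ⟨_, rfl⟩
  have hq2 : 1 / 2 ≤ q := by
    rw [hq, le_div_iff₀ hLpos]
    exact hSL
  rw [← hq] at h3
  obtain ⟨d, hdd⟩ : ∃ d : ℝ, d = δ / 20 := ⟨_, rfl⟩
  rw [← hdd] at h3
  have hd0 : 0 < d := by rw [hdd]; exact hd.1
  have hd1 : d ≤ 1 / 20 := by rw [hdd]; linarith [hδ.2]
  have hall : ∀ t ∈ G, riemannZeta (pt σ t) ≠ 0 ∧ ‖riemannZeta (pt σ t)‖ ≤ R ∧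
      ‖deriv riemannZeta (pt σ t) / riemannZeta (pt σ t)‖ ≤ (1 + d) * S ∧
      (M - d / 4 * q ≤ Real.log ‖riemannZeta (pt σ t)‖ →
        (1 - d) * S ≤ ‖deriv riemannZeta (pt σ t) / riemannZeta (pt σ t)‖) := by
    intro t ht
    obtain ⟨u, hu, htu⟩ := hmem t ht
    exact (h3 u (hin u hu).1 (hin u hu).2).2.1 t htu
  refine ⟨?_, fun θ => ?_⟩
  · intro t ht
    obtain ⟨u, hu, htu⟩ := hmem t ht
    have h4 := (h3 u (hin u hu).1 (hin u hu).2).1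
    have h5 := (hin u hu).1.1
    exact ⟨h5.trans htu.1, htu.2.trans h4⟩
  obtain ⟨u, hu⟩ := hUne
  obtain ⟨-, -, ⟨t₁, ht₁', hz1⟩, hθ⟩ := h3 u (hin u hu).1 (hin u hu).2
  obtain ⟨t₂, ht₂', hw2⟩ := hθ θ
  have ht₁ : t₁ ∈ G := hsub u hu t₁ ht₁'
  have ht₂ : t₂ ∈ G := hsub u hu t₂ ht₂'
  have hder : ∀ t ∈ G, ‖deriv riemannZeta (pt σ t)‖ =
      ‖riemannZeta (pt σ t)‖ * ‖deriv riemannZeta (pt σ t) / riemannZeta (pt σ t)‖ := by
    intro t ht
    rw [← norm_mul, mul_div_cancel₀ _ (hall t ht).1]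
  obtain ⟨A, hA⟩ : ∃ A : ℝ, A = sSup ((fun t : ℝ => ‖riemannZeta (pt σ t)‖) '' G) := ⟨_, rfl⟩
  have hbd : BddAbove ((fun t : ℝ => ‖riemannZeta (pt σ t)‖) '' G) := by
    refine ⟨R, ?_⟩
    rintro _ ⟨s, hs, rfl⟩
    exact (hall s hs).2.1
  have hleA : ∀ t ∈ G, ‖riemannZeta (pt σ t)‖ ≤ A := by
    intro t ht
    rw [hA]
    exact le_csSup hbd ⟨t, ht, rfl⟩
  have hz1pos : 0 < ‖riemannZeta (pt σ t₁)‖ := norm_pos_iff.2 (hall t₁ ht₁).1
  have hA0 : 0 < A := hz1pos.trans_le (hleA t₁ ht₁)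
  obtain ⟨t₃, ht₃, hz3⟩ : ∃ t ∈ G, (1 - d / 40) * A < ‖riemannZeta (pt σ t)‖ := by
    have e1 : (1 - d / 40) * A < sSup ((fun t : ℝ => ‖riemannZeta (pt σ t)‖) '' G) := by
      rw [← hA]
      have : 0 < d / 40 * A := by positivity
      have e2 : (1 - d / 40) * A = A - d / 40 * A := by ring
      rw [e2]
      linarith
    have hne : ((fun t : ℝ => ‖riemannZeta (pt σ t)‖) '' G).Nonempty := ⟨_, t₁, ht₁, rfl⟩
    obtain ⟨_, ⟨t, ht, rfl⟩, hlt⟩ := exists_lt_of_lt_csSup hne e1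
    exact ⟨t, ht, hlt⟩
  have h40 : 0 < 1 - d / 40 := by linarith
  have hlog3 : M - d / 4 * q ≤ Real.log ‖riemannZeta (pt σ t₃)‖ := by
    have e1 : Real.log ((1 - d / 40) * A) ≤ Real.log ‖riemannZeta (pt σ t₃)‖ :=
      Real.log_le_log (by positivity) hz3.le
    rw [Real.log_mul h40.ne' hA0.ne'] at e1
    have e2 : Real.log ‖riemannZeta (pt σ t₁)‖ ≤ Real.log A :=
      Real.log_le_log hz1pos (hleA t₁ ht₁)
    have e3 := uns_log hd0 hd1
    have e4 : d / 16 ≤ d / 8 * q := by nlinarith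
    linarith
  have hw3 := (hall t₃ ht₃).2.2.2 hlog3
  have s2 := uns_sup (f := fun t => ‖deriv riemannZeta (pt σ t)‖) (G := G)
    (a := (1 - d) * A * ((1 - d) * S))
    (b := (1 + d) * A * ((1 + d) * S))
    (fun t ht => by
      show ‖deriv riemannZeta (pt σ t)‖ ≤ _
      rw [hder t ht]
      refine mul_le_mul ((hleA t ht).trans ?_) (hall t ht).2.2.1 (norm_nonneg _) (by positivity)
      have : 0 < d * A := by positivity
      linarith)
    ⟨t₃, ht₃, by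
      show _ ≤ ‖deriv riemannZeta (pt σ t₃)‖
      rw [hder t₃ ht₃]
      refine mul_le_mul (le_trans ?_ hz3.le) hw3 (mul_nonneg (by linarith) hS0.le)
        (norm_nonneg _)
      exact mul_le_mul_of_nonneg_right (by linarith) hA0.le⟩
  have s3 := uns_sup (f := fun t => (Complex.exp (-((θ : ℂ) * Complex.I)) *
      (deriv riemannZeta (pt σ t) / riemannZeta (pt σ t))).re) (G := G)
    (a := (1 - d) * S)
    (b := (1 + d) * S)
    (fun t ht => by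
      refine (Complex.re_le_norm _).trans ?_
      rw [norm_mul, show -((θ : ℂ) * Complex.I) = ((-θ : ℝ) : ℂ) * Complex.I by push_cast; ring,
        Complex.norm_exp_ofReal_mul_I, one_mul]
      exact (hall t ht).2.2.1)
    ⟨t₂, ht₂, hw2⟩
  have s1a : (1 - d) * A ≤ sSup ((fun t : ℝ => ‖riemannZeta (pt σ t)‖) '' G) := by
    rw [← hA]
    have : 0 < d * A := by positivity
    linarith
  have s1b : sSup ((fun t : ℝ => ‖riemannZeta (pt σ t)‖) '' G) ≤ (1 + d) * A := by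
    rw [← hA]
    have : 0 < d * A := by positivity
    linarith
  have h4 := si57_alg hd0 hd1 hA0 hS0 s1a s1b s2.1 s2.2 s3.1 s3.2
  have hM : 0 ≤ sSup ((fun t : ℝ => ‖deriv riemannZeta (pt σ t)‖) '' G) /
      sSup ((fun t : ℝ => ‖riemannZeta (pt σ t)‖) '' G) := by
    refine div_nonneg (le_trans ?_ s2.1) (le_trans ?_ s1a)
    · exact mul_nonneg (mul_nonneg (by linarith) hA0.le) (mul_nonneg (by linarith) hS0.le)
    · exact mul_nonneg (by linarith) hA0.le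
  have hdδ : δ = 20 * d := by rw [hdd]; ring
  rw [← hS]
  refine ⟨?_, ?_, ?_⟩
  · refine le_trans (mul_le_mul_of_nonneg_right ?_ hM) h4.1
    linarith
  · refine le_trans h4.2.1 (mul_le_mul_of_nonneg_right ?_ hM)
    linarith
  · refine h4.2.2.trans (mul_le_mul_of_nonneg_right ?_ hS0.le)
    linarith

end Pool.Agent.Helper17.SL
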